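import Pool.Agent.Helper1.RK.StD

/-!
# Project RK (MP_de00bc_nt), module ADM
-/

set_option autoImplicit false

namespace Pool.Agent.Helper15.RK

open Pool.Agent.Helper1.RK

theorem val_sub {x : ℚ} {n : ℕ} (hn : 0 < n) (hx0 : x ≠ 0) (hx : padicValRat 2 x = -(n : ℤ)) (m : ℤ) (hm : m ≠ 0) :
    x - m ≠ 0 ∧ padicValRat 2 (x - m) = -(n : ℤ) := by
  have hv : (0 : ℤ) ≤ padicValRat 2 (m : ℚ) := by
    rw [padicValRat.of_int]
    exact Int.natCast_nonneg _
  have hne : x - m ≠ 0 := by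
    intro h
    have : x = m := by linarith
    rw [this] at hx
    omega
  refine ⟨hne, ?_⟩
  have h1 : padicValRat 2 (x + (-(m : ℚ))) = padicValRat 2 x := by
    apply padicValRat.add_eq_of_lt
    · rwa [← sub_eq_add_neg]
    · exact hx0
    · simpa using hm
    · rw [padicValRat.neg]
      omega
  rw [sub_eq_add_neg, h1, hx]

theorem step (l : ℤ) (hl : l ≠ 0) (n : ℕ) (hn : 0 < n) (x y : ℚ) (h : y ^ 2 = x * (x - 1) * (x - l))
    (hx0 : x ≠ 0) (hx : padicValRat 2 x = -(n : ℤ)) :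
    ∃ x' y' : ℚ, y' ^ 2 = x' * (x' - 1) * (x' - l) ∧ x' ≠ 0 ∧
      padicValRat 2 x' = -((n + 2 : ℕ) : ℤ) := by
  have h1 := val_sub hn hx0 hx 1 one_ne_zero
  have h2 := val_sub hn hx0 hx l hl
  rw [Int.cast_one] at h1
  have hy : y ≠ 0 := by
    intro hy
    rw [hy] at h
    have : x * (x - 1) * (x - l) ≠ 0 := mul_ne_zero (mul_ne_zero hx0 h1.1) h2.1
    apply this
    rw [← h]
    norm_num
  have hvy : 2 * padicValRat 2 y = -3 * (n : ℤ) := by
    have e := congrArg (padicValRat 2) h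
    rw [padicValRat.pow, padicValRat.mul (mul_ne_zero hx0 h1.1) h2.1, padicValRat.mul hx0 h1.1,
      h1.2, h2.2, hx] at e
    push_cast at e
    linarith
  have hxx : padicValRat 2 (x ^ 2) = -((2 * n : ℕ) : ℤ) := by
    rw [padicValRat.pow, hx]
    push_cast
    ring
  have h3 := val_sub (by omega : 0 < 2 * n) (pow_ne_zero 2 hx0) hxx l hl
  refine ⟨(x ^ 2 - l) ^ 2 / (4 * y ^ 2),
    (x ^ 2 - l) * (x ^ 2 - 2 * x + l) * (x ^ 2 - 2 * l * x + l) / (8 * y ^ 3), ?_, ?_, ?_⟩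
  · have e1 : (x ^ 2 - l) ^ 2 / (4 * y ^ 2) - 1 = (x ^ 2 - 2 * x + l) ^ 2 / (4 * y ^ 2) := by
      field_simp
      rw [h]
      ring
    have e2 : (x ^ 2 - l) ^ 2 / (4 * y ^ 2) - l = (x ^ 2 - 2 * l * x + l) ^ 2 / (4 * y ^ 2) := by
      field_simp
      rw [h]
      ring
    rw [e1, e2]
    field_simp
    ring
  · exact div_ne_zero (pow_ne_zero 2 h3.1) (mul_ne_zero (by norm_num) (pow_ne_zero 2 hy))
  · rw [padicValRat.div (pow_ne_zero 2 h3.1) (mul_ne_zero (by norm_num) (pow_ne_zero 2 hy)),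
      padicValRat.pow, padicValRat.mul (by norm_num) (pow_ne_zero 2 hy), padicValRat.pow, h3.2]
    have e4 : padicValRat 2 (4 : ℚ) = 2 := by
      have : (4 : ℚ) = (2 : ℚ) ^ 2 := by norm_num
      rw [this, padicValRat.pow]
      have := padicValRat.self (p := 2) (by norm_num)
      push_cast at this
      rw [this]
      norm_num
    rw [e4]
    push_cast
    linarith

/-- Module ADM. -/
theorem pADM : StADM := by
  intro k hk hk3
  obtain ⟨j, rfl⟩ := hk
  obtain ⟨i, hi⟩ : ∃ i : ℕ, j * (j + 1) = 2 * i := by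
    obtain ⟨i, hi⟩ := (Nat.even_mul_succ_self j).two_dvd
    exact ⟨i, hi⟩
  set l : ℤ := 1 + 6 * (i : ℤ) with hl
  have hlq : (1 + 3 * ((2 * j + 1 : ℕ) : ℚ) ^ 2) / 4 = (l : ℚ) := by
    have : ((j : ℚ)) * (j + 1) = 2 * i := by exact_mod_cast hi
    rw [hl]
    push_cast
    linarith
  have hl0 : l ≠ 0 := by omega
  rw [hlq]
  have hpts : ∀ n : ℕ, ∃ x y : ℚ, y ^ 2 = x * (x - 1) * (x - l) ∧ x ≠ 0 ∧
      padicValRat 2 x = -((2 * n + 2 : ℕ) : ℤ) := by
    intro n
    induction n with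
    | zero =>
      refine ⟨1 / 4, 3 * (2 * j + 1) / 8, ?_, by norm_num, ?_⟩
      · have : ((j : ℚ)) * (j + 1) = 2 * i := by exact_mod_cast hi
        rw [hl]
        push_cast
        nlinarith
      · have e4 : (1 / 4 : ℚ) = ((2 : ℚ) ^ 2)⁻¹ := by norm_num
        rw [e4, padicValRat.inv, padicValRat.pow]
        have := padicValRat.self (p := 2) (by norm_num)
        push_cast at this
        rw [this]
        norm_num
    | succ n ih =>
      obtain ⟨x, y, h, hx0, hx⟩ := ih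
      obtain ⟨x', y', h', hx0', hx'⟩ := step l hl0 (2 * n + 2) (by omega) x y h hx0 hx
      exact ⟨x', y', h', hx0', by rw [hx']; push_cast; ring⟩
  choose x y h hx0 hx using hpts
  refine Set.infinite_of_injective_forall_mem (f := fun n : ℕ => (x n, y n)) ?_ (fun n => h n)
  intro a b hab
  have h1 : x a = x b := (Prod.ext_iff.1 hab).1
  have h2 := hx a
  rw [h1, hx b] at h2
  omega

end Pool.Agent.Helper15.RK
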