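import Pool.Agent.Helper1.RK.StD

/-!
# Project RK (MP_de00bc_nt), module DEX
-/

set_option autoImplicit false

namespace Pool.Agent.Helper15.RK

open Pool.Agent.Helper1.RK Polynomial

/-- A derivation from its underlying function. -/
noncomputable def conv {K : Type} [Field K] (f : K → K) (hadd : ∀ x y, f (x + y) = f x + f y)
    (hmul : ∀ x y, f (x * y) = x * f y + y * f x) : Derivation ℤ K K :=
  Derivation.mk' (AddMonoidHom.mk' f hadd).toIntLinearMap (by intro a b; simpa using hmul a b)

theorem conv_apply {K : Type} [Field K] (f : K → K) (hadd : ∀ x y, f (x + y) = f x + f y)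
    (hmul : ∀ x y, f (x * y) = x * f y + y * f x) (x : K) : conv f hadd hmul x = f x := rfl

/-- PDR with the derivations of the field. -/
theorem pdr_field (hPDR : StPDR) (I : Type) :
    ∃ d : I → @Derivation ℤ (FractionRing (MvPolynomial I ℚ)) (FractionRing (MvPolynomial I ℚ))
      Int.instCommSemiring
      Field.toSemifield.toCommSemiring Field.toSemifield.toDivisionSemiring.toAddCommMonoid
      (Ring.toIntAlgebra (FractionRing (MvPolynomial I ℚ))) Semiring.toModule
      (AddCommGroup.toIntModule (FractionRing (MvPolynomial I ℚ))),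
    (∀ i j x, d i (d j x) = d j (d i x)) ∧
    (∀ i, d i (algebraMap (MvPolynomial I ℚ) _ (MvPolynomial.X i)) = 1) ∧
    (∀ i j, i ≠ j → d i (algebraMap (MvPolynomial I ℚ) _ (MvPolynomial.X j)) = 0) := by
  obtain ⟨d, hd1, hd2, hd3, -⟩ := hPDR ℚ I
  refine ⟨fun i => conv (K := FractionRing (MvPolynomial I ℚ)) (fun x => d i x)
    (fun x y => (d i).map_add x y) (fun x y => (d i).leibniz x y), ?_, ?_, ?_⟩
  · intro i j x
    exact hd1 i j x
  · intro i
    exact hd2 i
  · intro i j hij
    exact hd3 i j hij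

/-- Module DEX. -/
theorem pDEX (hDXT : StDXT) (hPDR : StPDR) : StDEX := by
  intro L _ _ r lam hlam
  have hs : AlgebraicIndepOn ℚ id (Set.range lam) := AlgebraicIndependent.coe_range hlam
  obtain ⟨t, hst, ht⟩ := exists_isTranscendenceBasis_superset hs
  have hti : AlgebraicIndependent ℚ ((↑) : t → L) := ht.1
  set ψ : MvPolynomial t ℚ →ₐ[ℚ] L := MvPolynomial.aeval ((↑) : t → L) with hψ
  have hinj : Function.Injective ψ := hti
  let Φ : FractionRing (MvPolynomial t ℚ) →+* L :=
    IsFractionRing.lift (A := MvPolynomial t ℚ) (g := ψ.toRingHom) hinj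
  let _ : Algebra (FractionRing (MvPolynomial t ℚ)) L := Φ.toAlgebra
  have hΦ : ∀ p : MvPolynomial t ℚ, algebraMap (FractionRing (MvPolynomial t ℚ)) L
      (algebraMap (MvPolynomial t ℚ) _ p) = ψ p := by
    intro p
    exact IsFractionRing.lift_algebraMap (A := MvPolynomial t ℚ) hinj p
  have halg : Algebra.IsAlgebraic (FractionRing (MvPolynomial t ℚ)) L := by
    constructor
    intro x
    obtain ⟨P, hP, hPx⟩ := (ht.isAlgebraic.isAlgebraic x)
    set g : Algebra.adjoin ℚ (Set.range ((↑) : t → L)) →+* FractionRing (MvPolynomial t ℚ) :=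
      (algebraMap (MvPolynomial t ℚ) (FractionRing (MvPolynomial t ℚ))).comp
        (hti.aevalEquiv.symm : Algebra.adjoin ℚ (Set.range ((↑) : t → L)) →+* MvPolynomial t ℚ)
      with hg
    have hginj : Function.Injective g := by
      intro y z hyz
      have h1 := IsFractionRing.injective (MvPolynomial t ℚ) (FractionRing (MvPolynomial t ℚ)) hyz
      exact hti.aevalEquiv.symm.injective h1
    have hgc : ∀ y, algebraMap (FractionRing (MvPolynomial t ℚ)) L (g y) = (y : L) := by
      intro y
      have h1 : algebraMap (FractionRing (MvPolynomial t ℚ)) L (g y) =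
          ψ (hti.aevalEquiv.symm y) := hΦ _
      rw [h1, hψ, ← hti.algebraMap_aevalEquiv, AlgEquiv.apply_symm_apply]
      rfl
    refine ⟨P.map g, ?_, ?_⟩
    · rwa [Ne, Polynomial.map_eq_zero_iff hginj]
    · rw [← hPx, aeval_def, aeval_def, eval₂_map]
      congr 1
      ext y
      exact hgc y
  obtain ⟨d, hd1, hd2, hd3⟩ := pdr_field hPDR t
  obtain ⟨hE1, hE2⟩ := hDXT (FractionRing (MvPolynomial t ℚ)) L halg
  choose d' hd' using hE1
  have hmem : ∀ k, lam k ∈ t := fun k => hst ⟨k, rfl⟩
  have hlamk : ∀ k, algebraMap (FractionRing (MvPolynomial t ℚ)) L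
      (algebraMap (MvPolynomial t ℚ) _ (MvPolynomial.X ⟨lam k, hmem k⟩)) = lam k := by
    intro k
    rw [hΦ, hψ, MvPolynomial.aeval_X]
  refine ⟨fun k => d' (d ⟨lam k, hmem k⟩), ?_, ?_, ?_⟩
  · intro k l a
    have h0 : ⁅d' (d ⟨lam k, hmem k⟩), d' (d ⟨lam l, hmem l⟩)⁆ = 0 := by
      apply hE2
      intro x
      rw [Derivation.commutator_apply, hd', hd', hd', hd', hd1, sub_self]
    have h1 : ⁅d' (d ⟨lam k, hmem k⟩), d' (d ⟨lam l, hmem l⟩)⁆ a = 0 := by
      rw [h0]
      rfl
    rw [Derivation.commutator_apply] at h1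
    exact sub_eq_zero.1 h1
  · intro k
    have := hd' (d ⟨lam k, hmem k⟩)
      (algebraMap (MvPolynomial t ℚ) _ (MvPolynomial.X ⟨lam k, hmem k⟩))
    rw [hlamk, hd2, map_one] at this
    exact this
  · intro k l hkl
    have := hd' (d ⟨lam k, hmem k⟩)
      (algebraMap (MvPolynomial t ℚ) _ (MvPolynomial.X ⟨lam l, hmem l⟩))
    rw [hlamk, hd3, map_zero] at this
    · exact this
    · intro h
      apply hkl
      exact hlam.injective (congrArg Subtype.val h)

end Pool.Agent.Helper15.RK
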