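import Pool.Agent.Helper1.RK.StD

/-!
# Project RK (MP_de00bc_nt), module MOV
-/

set_option autoImplicit false

namespace Pool.Agent.Helper15.RK

open Pool.Agent.Helper1.RK Polynomial

/-- the constants of a derivation -/
def cons {L : Type} [Field L] (d : Derivation ℤ L L) : Subfield L where
  carrier := {x | d x = 0}
  mul_mem' := by
    intro a b ha hb
    simp only [Set.mem_setOf_eq] at ha hb ⊢
    rw [Derivation.leibniz, ha, hb]
    simp
  one_mem' := by
    simp only [Set.mem_setOf_eq]
    exact d.map_one_eq_zero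
  add_mem' := by
    intro a b ha hb
    simp only [Set.mem_setOf_eq] at ha hb ⊢
    rw [map_add, ha, hb, add_zero]
  zero_mem' := by simp
  neg_mem' := by
    intro a ha
    simp only [Set.mem_setOf_eq] at ha ⊢
    rw [map_neg, ha, neg_zero]
  inv_mem' := by
    intro a ha
    simp only [Set.mem_setOf_eq] at ha ⊢
    rw [Derivation.leibniz_inv, ha, smul_zero]

theorem mem_cons {L : Type} [Field L] (d : Derivation ℤ L L) (x : L) : x ∈ cons d ↔ d x = 0 :=
  Iff.rfl

theorem d_aeval {L : Type} [Field L] (d : Derivation ℤ L L) (P : (cons d)[X]) (a : L) :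
    d (aeval a P) = aeval a (derivative P) * d a := by
  induction P using Polynomial.induction_on' with
  | add p q hp hq => rw [map_add, map_add, map_add, map_add, add_mul, hp, hq]
  | monomial n c =>
    rw [aeval_monomial, derivative_monomial, aeval_monomial, Derivation.leibniz,
      Derivation.leibniz_pow]
    have hc : d (algebraMap (cons d) L c) = 0 := c.2
    rw [hc]
    simp only [smul_zero, add_zero, smul_eq_mul, map_mul, nsmul_eq_mul, map_natCast]
    ring

theorem trans_of_d {L : Type} [Field L] [CharZero L] (d : Derivation ℤ L L) (a : L) (ha : d a = 1) :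
    Transcendental (cons d) a := by
  intro halg
  have hint : IsIntegral (cons d) a := halg.isIntegral
  have h1 := minpoly.aeval (cons d) a
  have h2 := d_aeval d (minpoly (cons d) a) a
  rw [h1, map_zero, ha, mul_one] at h2
  have h3 := minpoly.natDegree_pos hint
  have h4 : derivative (minpoly (cons d) a) ≠ 0 := by
    intro h
    have := Polynomial.derivative_eq_zero.1 h
    omega
  have h5 := minpoly.degree_le_of_ne_zero (cons d) a h4 h2.symm
  have h6 := Polynomial.degree_derivative_lt (minpoly.ne_zero hint)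
  exact absurd (lt_of_le_of_lt h5 h6) (lt_irrefl _)

/-- Module MOV. -/
theorem pMOV (hIRR : StIRR) : StMOV := by
  intro L _ _ _ d0 d2 K a b e halg haK hKle hd0a hd0b hb he
  have htr := trans_of_d d0 a hd0a
  -- the map from `RatFunc (cons d0)`
  have hinj : Function.Injective (aeval a : (cons d0)[X] →ₐ[cons d0] L) :=
    transcendental_iff_injective.1 htr
  set φ : RatFunc (cons d0) →ₐ[cons d0] L := RatFunc.liftAlgHom (aeval a)
    (nonZeroDivisors_le_comap_nonZeroDivisors_of_injective _ hinj) with hφ
  have hφp : ∀ p : (cons d0)[X], φ (algebraMap _ _ p) = aeval a p := by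
    intro p
    have := RatFunc.liftAlgHom_apply_div (aeval a : (cons d0)[X] →ₐ[cons d0] L)
      (nonZeroDivisors_le_comap_nonZeroDivisors_of_injective _ hinj) p 1
    simpa using this
  have hφX : φ RatFunc.X = a := by
    rw [← RatFunc.algebraMap_X, hφp, aeval_X]
  have hφC : ∀ c : cons d0, φ (RatFunc.C c) = (c : L) := by
    intro c
    rw [← RatFunc.algebraMap_C, hφp, aeval_C]
    rfl
  set T : Subfield L := φ.toRingHom.fieldRange with hT
  have hKT : K ≤ T := by
    refine hKle.trans ?_
    rw [Subfield.closure_le]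
    rintro x (hx | hx)
    · exact ⟨RatFunc.C ⟨x, hx⟩, hφC _⟩
    · rw [Set.mem_singleton_iff] at hx
      exact ⟨RatFunc.X, by rw [hx]; exact hφX⟩
  have heT : e ∉ T := by
    rintro ⟨g, hg⟩
    have hg' : φ g = e := hg
    have hb' : (⟨b, hd0b⟩ : cons d0) ≠ 0 := by
      intro h
      exact hb (congrArg Subtype.val h)
    apply hIRR (cons d0) ⟨b, hd0b⟩ hb' g
    apply φ.toRingHom.injective
    change φ (g ^ 3 + RatFunc.X * g + RatFunc.C ⟨b, hd0b⟩) = φ 0
    rw [map_add, map_add, map_pow, map_mul, hφX, hφC, hg', map_zero]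
    exact he
  set k : Subfield L := K ⊔ (cons d0 ⊓ cons d2) with hk
  have hkT : k ≤ T := by
    refine sup_le hKT ?_
    intro x hx
    exact ⟨RatFunc.C ⟨x, hx.1⟩, hφC _⟩
  have hek : e ∉ k := fun h => heT (hkT h)
  have hKk : K ≤ k := le_sup_left
  have halgk : Algebra.IsAlgebraic k L := by
    constructor
    intro x
    obtain ⟨P, hP, hPx⟩ := halg x
    refine ⟨P.map (Subfield.inclusion hKk), ?_, ?_⟩
    · rwa [Ne, Polynomial.map_eq_zero]
    · rw [← hPx, aeval_def, aeval_def, eval₂_map]
      rfl
  have : IsAlgClosure k L := ⟨inferInstance, halgk⟩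
  have : Normal k L := IsAlgClosure.normal k L
  have : IsGalois k L := IsGalois.mk
  have hnot : ¬ ∀ f : Gal(L/k), f e = e := by
    intro h
    have h2 := (InfiniteGalois.mem_range_algebraMap_iff_fixed (k := k) (K := L) e).2 h
    obtain ⟨y, hy⟩ := h2
    apply hek
    rw [← hy]
    exact y.2
  push Not at hnot
  obtain ⟨σ, hσ⟩ := hnot
  refine ⟨σ.toRingEquiv, ?_, ?_, hσ⟩
  · intro x hx
    exact σ.commutes ⟨x, hKk hx⟩
  · intro x hx0 hx2
    have hx : x ∈ k := (le_sup_right : cons d0 ⊓ cons d2 ≤ K ⊔ (cons d0 ⊓ cons d2)) ⟨hx0, hx2⟩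
    exact σ.commutes ⟨x, hx⟩

end Pool.Agent.Helper15.RK
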